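import Mathlib

/-!
# Deficiencies of extremal multidimensional (0,1)-matrices (MP_1f9c83_co)

We exhibit an extremal 10-dimensional (0,1)-matrix of order 2 whose deficiency is `2/63`, which is
not the reciprocal of a positive integer.

The matrix comes from the weighted majority game with weights
`28, 24, 15, 15, 11, 11, 11, 3, 3, 3` (total 124) and quota 63: an entry is 1 exactly when the
coalition it encodes has weight at least 63.
-/

open Finset

namespace Pool.Agent.Results.MP_1f9c83_co.DeficiencyDisproof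

/-- A `d`-dimensional (0,1)-matrix of order `n`: an array indexed by `[n]^d` with entries in
`{0, 1}`. -/
abbrev ZeroOneMatrix (d n : ℕ) : Type := (Fin d → Fin n) → Fin 2

/-- The hyperplane obtained by fixing the `i`-th coordinate to be `j`. -/
def hyperplane {d n : ℕ} (i : Fin d) (j : Fin n) : Finset (Fin d → Fin n) :=
  univ.filter fun α => α i = j

/-- `K` is a polyplex in `A`: it is nonnegative, vanishes at the zero entries of `A`, and its sum
over every hyperplane is at most 1. -/
def IsPolyplex {d n : ℕ} (A : ZeroOneMatrix d n) (K : (Fin d → Fin n) → ℝ) : Prop :=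
  (∀ α, 0 ≤ K α) ∧ (∀ α, A α = 0 → K α = 0) ∧ ∀ i j, ∑ α ∈ hyperplane i j, K α ≤ 1

/-- The weight of an array: the sum of all its entries. -/
def weight {d n : ℕ} (K : (Fin d → Fin n) → ℝ) : ℝ := ∑ α, K α

/-- `K` is a polydiagonal in `A`: a polyplex whose sum over every hyperplane equals 1. -/
def IsPolydiagonal {d n : ℕ} (A : ZeroOneMatrix d n) (K : (Fin d → Fin n) → ℝ) : Prop :=
  IsPolyplex A K ∧ ∀ i j, ∑ α ∈ hyperplane i j, K α = 1

/-- `A` is extremal: it has no polydiagonal, but replacing any single entry 0 by 1 gives a matrix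
that has a polydiagonal. -/
def IsExtremal {d n : ℕ} (A : ZeroOneMatrix d n) : Prop :=
  (¬ ∃ K, IsPolydiagonal A K) ∧
    ∀ α, A α = 0 → ∃ K, IsPolydiagonal (Function.update A α 1) K

/-- The deficiency of `A`: `n` minus the maximum weight of a polyplex in `A`. -/
noncomputable def deficiency {d n : ℕ} (A : ZeroOneMatrix d n) : ℝ :=
  (n : ℝ) - sSup {w | ∃ K, IsPolyplex A K ∧ weight K = w}

/-! ### The example -/

/-- The weights of the ten voters. -/
def W : Fin 10 → ℕ := ![28, 24, 15, 15, 11, 11, 11, 3, 3, 3]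

/-- The weight of the coalition `{i : α i = 1}`. -/
def cw (α : Fin 10 → Fin 2) : ℕ := ∑ i, W i * (α i).1

/-- The matrix. -/
def A : ZeroOneMatrix 10 2 := fun α => if 63 ≤ cw α then 1 else 0

theorem A_eq_zero {α : Fin 10 → Fin 2} : A α = 0 ↔ cw α < 63 := by
  unfold A
  split_ifs with h
  · simp; omega
  · simp; omega

theorem cw_ne_nested : ∀ a0 a1 a2 a3 a4 a5 a6 a7 a8 a9 : Fin 2,
    28 * a0.1 + 24 * a1.1 + 15 * a2.1 + 15 * a3.1 + 11 * a4.1 + 11 * a5.1 + 11 * a6.1
      + 3 * a7.1 + 3 * a8.1 + 3 * a9.1 ≠ 62 := by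
  decide +kernel

theorem cw_ne (α : Fin 10 → Fin 2) : cw α ≠ 62 := by
  have := cw_ne_nested (α 0) (α 1) (α 2) (α 3) (α 4) (α 5) (α 6) (α 7) (α 8) (α 9)
  simpa [cw, W, Fin.sum_univ_succ, add_assoc] using this

/-- The complementary coalition. -/
def compl (α : Fin 10 → Fin 2) : Fin 10 → Fin 2 := fun i => 1 - α i

theorem compl_val (x : Fin 2) : (1 - x).1 = 1 - x.1 := by
  revert x; decide

theorem cw_add_compl (α : Fin 10 → Fin 2) : cw α + cw (compl α) = 124 := by
  unfold cw compl
  rw [← Finset.sum_add_distrib]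
  have : ∀ i, W i * (α i).1 + W i * (1 - α i).1 = W i := by
    intro i
    rw [compl_val, ← mul_add]
    have : (α i).1 + (1 - (α i).1) = 1 := by omega
    rw [this, mul_one]
  rw [Finset.sum_congr rfl fun i _ => this i]
  decide

/-- Double counting of weighted incidences. -/
theorem sum_mul_cw (K : (Fin 10 → Fin 2) → ℝ) :
    ∑ α, K α * (cw α : ℝ) = ∑ i, (W i : ℝ) * ∑ α ∈ hyperplane i 1, K α := by
  have h1 : ∀ α : Fin 10 → Fin 2, K α * (cw α : ℝ) = ∑ i, (W i : ℝ) * (if α i = 1 then K α else 0) := by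
    intro α
    unfold cw
    push_cast
    rw [Finset.mul_sum]
    apply Finset.sum_congr rfl
    intro i _
    have : ∀ x : Fin 2, (x.1 : ℝ) = if x = 1 then 1 else 0 := by
      intro x
      fin_cases x <;> simp
    rw [this]
    split_ifs <;> ring
  rw [Finset.sum_congr rfl fun α _ => h1 α, Finset.sum_comm]
  apply Finset.sum_congr rfl
  intro i _
  rw [← Finset.mul_sum, hyperplane, Finset.sum_filter]

theorem sum_W : ∑ i, (W i : ℝ) = 124 := by
  have : ∑ i, W i = 124 := by decide
  exact_mod_cast this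

/-- Every polyplex of `A` has weight at most `124 / 63`. -/
theorem weight_le {K : (Fin 10 → Fin 2) → ℝ} (hK : IsPolyplex A K) : weight K ≤ 124 / 63 := by
  obtain ⟨hnn, hsupp, hle⟩ := hK
  have h1 : ∑ α, K α * 63 ≤ ∑ α, K α * (cw α : ℝ) := by
    apply Finset.sum_le_sum
    intro α _
    by_cases h : cw α < 63
    · rw [hsupp α (A_eq_zero.2 h)]; simp
    · have : (63 : ℝ) ≤ (cw α : ℝ) := by exact_mod_cast not_lt.1 h
      exact mul_le_mul_of_nonneg_left this (hnn α)
  have h2 : ∑ i, (W i : ℝ) * ∑ α ∈ hyperplane i 1, K α ≤ ∑ i, (W i : ℝ) := by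
    apply Finset.sum_le_sum
    intro i _
    have := mul_le_mul_of_nonneg_left (hle i 1) (Nat.cast_nonneg (α := ℝ) (W i))
    simpa using this
  rw [sum_mul_cw] at h1
  rw [sum_W] at h2
  rw [← Finset.sum_mul] at h1
  unfold weight
  linarith

/-- A polydiagonal has weight 2. -/
theorem weight_eq_two {K : (Fin 10 → Fin 2) → ℝ} (hK : IsPolydiagonal A K) : weight K = 2 := by
  have h0 := hK.2 0 0
  have h1 := hK.2 0 1
  have hsplit := Finset.sum_filter_add_sum_filter_not (univ : Finset (Fin 10 → Fin 2))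
    (fun α => α 0 = 0) K
  have heq : (univ.filter fun α : Fin 10 → Fin 2 => ¬ α 0 = 0)
      = univ.filter fun α : Fin 10 → Fin 2 => α 0 = 1 := by
    ext α
    simp only [mem_filter, mem_univ, true_and]
    generalize α 0 = x
    revert x
    decide
  rw [heq] at hsplit
  unfold hyperplane at h0 h1
  unfold weight
  rw [← hsplit, h0, h1]
  norm_num

/-- The array with value `1` at `α` and at its complement. -/
noncomputable def pairArr (α : Fin 10 → Fin 2) : (Fin 10 → Fin 2) → ℝ :=
  fun β => (if β = α then 1 else 0) + (if β = compl α then 1 else 0)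

theorem sum_pairArr (α : Fin 10 → Fin 2) (i : Fin 10) (j : Fin 2) :
    ∑ β ∈ hyperplane i j, pairArr α β = 1 := by
  unfold pairArr
  rw [Finset.sum_add_distrib, Finset.sum_ite_eq', Finset.sum_ite_eq']
  simp only [hyperplane, mem_filter, mem_univ, true_and, compl]
  have : ∀ x y : Fin 2, ((if x = y then (1 : ℝ) else 0) + if 1 - x = y then 1 else 0) = 1 := by
    intro x y
    fin_cases x <;> fin_cases y <;> simp
  exact this _ _

theorem A_extremal : IsExtremal A := by
  constructor
  · rintro ⟨K, hK⟩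
    have h1 := weight_le hK.1
    rw [weight_eq_two hK] at h1
    norm_num at h1
  · intro α hα
    have hlt := A_eq_zero.1 hα
    have hne := cw_ne α
    have hsum := cw_add_compl α
    have hcompl : A (compl α) ≠ 0 := by
      intro h
      have := A_eq_zero.1 h
      omega
    refine ⟨pairArr α, ⟨?_, ?_, ?_⟩, sum_pairArr α⟩
    · intro β
      unfold pairArr
      split_ifs <;> norm_num
    · intro β hβ
      unfold pairArr
      have h1 : β ≠ α := by
        rintro rfl
        simp at hβ
      have h2 : β ≠ compl α := by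
        rintro rfl
        rw [Function.update_of_ne h1] at hβ
        exact hcompl hβ
      simp [h1, h2]
    · intro i j
      exact (sum_pairArr α i j).le

/-- Ten coalitions of weight exactly 63. -/
def pats : Fin 10 → (Fin 10 → Fin 2) :=
  ![![1, 1, 0, 0, 1, 0, 0, 0, 0, 0],
    ![1, 1, 0, 0, 0, 1, 0, 0, 0, 0],
    ![0, 1, 1, 1, 0, 0, 0, 1, 1, 1],
    ![1, 1, 0, 0, 0, 0, 1, 0, 0, 0],
    ![0, 1, 0, 0, 1, 1, 1, 0, 1, 1],
    ![1, 0, 0, 1, 1, 0, 0, 1, 1, 1],
    ![0, 0, 1, 1, 1, 1, 1, 0, 0, 0],
    ![0, 1, 0, 0, 1, 1, 1, 1, 0, 1],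
    ![0, 1, 0, 0, 1, 1, 1, 1, 1, 0],
    ![1, 0, 1, 0, 0, 0, 1, 1, 1, 1]]

/-- Their multiplicities. -/
def coef : Fin 10 → ℕ := ![4, 21, 19, 4, 5, 17, 27, 5, 5, 17]

/-- The optimal polyplex. -/
noncomputable def optArr : (Fin 10 → Fin 2) → ℝ :=
  fun β => ∑ j, if β = pats j then (coef j : ℝ) / 63 else 0

theorem sum_optArr (S : Finset (Fin 10 → Fin 2)) :
    ∑ β ∈ S, optArr β = (∑ j, if pats j ∈ S then (coef j : ℝ) else 0) / 63 := by
  unfold optArr
  rw [Finset.sum_comm, Finset.sum_div]
  apply Finset.sum_congr rfl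
  intro j _
  rw [Finset.sum_ite_eq']
  split_ifs <;> simp

theorem pats_win : ∀ j, cw (pats j) = 63 := by
  decide +kernel

theorem pats_hyper : ∀ (i : Fin 10) (c : Fin 2), (∑ j, if pats j i = c then coef j else 0) ≤ 63 := by
  decide +kernel

theorem optArr_polyplex : IsPolyplex A optArr := by
  refine ⟨?_, ?_, ?_⟩
  · intro β
    unfold optArr
    apply Finset.sum_nonneg
    intro j _
    split_ifs <;> positivity
  · intro β hβ
    unfold optArr
    apply Finset.sum_eq_zero
    intro j _
    rw [if_neg]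
    rintro rfl
    have := A_eq_zero.1 hβ
    rw [pats_win] at this
    omega
  · intro i c
    rw [sum_optArr, div_le_one (by norm_num)]
    have h := pats_hyper i c
    simp only [hyperplane, mem_filter, mem_univ, true_and]
    exact_mod_cast h

theorem weight_optArr : weight optArr = 124 / 63 := by
  unfold weight
  rw [sum_optArr]
  have : ∑ j, coef j = 124 := by decide
  have h2 : (∑ j, (coef j : ℝ)) = 124 := by exact_mod_cast this
  simp [h2]

theorem deficiency_A : deficiency A = 2 / 63 := by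
  have hsup : sSup {w | ∃ K, IsPolyplex A K ∧ weight K = w} = 124 / 63 := by
    apply le_antisymm
    · apply csSup_le
      · exact ⟨_, optArr, optArr_polyplex, rfl⟩
      · rintro w ⟨K, hK, rfl⟩
        exact weight_le hK
    · apply le_csSup
      · refine ⟨124 / 63, ?_⟩
        rintro w ⟨K, hK, rfl⟩
        exact weight_le hK
      · exact ⟨optArr, optArr_polyplex, weight_optArr⟩
  unfold deficiency
  rw [hsup]
  norm_num

theorem not_unit_fraction : ¬ ∃ m : ℕ, 0 < m ∧ (2 / 63 : ℝ) = 1 / (m : ℝ) := by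
  rintro ⟨m, hm, h⟩
  have hm' : (0 : ℝ) < (m : ℝ) := by exact_mod_cast hm
  rw [div_eq_div_iff (by norm_num) hm'.ne'] at h
  have h2 : 2 * m = 63 := by
    have : (2 : ℝ) * m = 63 := by linarith
    exact_mod_cast this
  omega

/-- The statement asked in Q1 is false: there is an extremal 10-dimensional (0,1)-matrix of
order 2 whose deficiency is `2 / 63`, which is not of the form `1 / m` with a positive
integer `m`. -/
theorem result : ∃ A : ZeroOneMatrix 10 2,
    IsExtremal A ∧ deficiency A = 2 / 63 ∧ ¬ ∃ m : ℕ, 0 < m ∧ deficiency A = 1 / (m : ℝ) := by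
  refine ⟨A, A_extremal, deficiency_A, ?_⟩
  rw [deficiency_A]
  exact not_unit_fraction

end Pool.Agent.Results.MP_1f9c83_co.DeficiencyDisproof
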